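import Pool.Agent.E8helper7.LC.WB4

/-!
# Project LC (helper19), MP_862eda_mp: piece LC21
-/

set_option autoImplicit false
open MeasureTheory Filter Topology Set FourierTransform SchwartzMap
open scoped ContDiff Real ComplexInnerProductSpace

namespace Pool.Agent.E8helper7.LC

open Pool.Agent.E8helper19.LC

theorem cos_mul_abs (p s : ℝ) : Real.cos (p * |s|) = Real.cos (p * s) := by
  rcases le_or_gt 0 s with hs | hs
  · rw [abs_of_nonneg hs]
  · rw [abs_of_neg hs, mul_neg, Real.cos_neg]

theorem pw_eq (p s : ℝ) : pw p s = ((Real.cos (p * s) : ℝ) : ℂ) + Complex.I * ((Real.sin (p * s) : ℝ) : ℂ) := by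
  unfold pw
  have : Complex.I * p * (s : ℂ) = ((p * s : ℝ) : ℂ) * Complex.I := by push_cast; ring
  rw [this, Complex.exp_mul_I, Complex.ofReal_cos, Complex.ofReal_sin]
  ring

theorem acos (h : S_FT) (h2 : S_G) {α k : ℝ} (hk : 0 < k) (hα : 2 * k < α) (p : ℝ) :
    ∫ r, (α * Gk (mu α k) |r|) * Real.cos (p * |r|) = α / (2 * qq α k p) := by
  have h1 := ahat h hk hα p
  have hi : Integrable (fun r : ℝ => ((α * Gk (mu α k) |r| : ℝ) : ℂ) * pw p r) := by
    refine (int_aC h2 hk hα).mul_bdd (c := 1) (pw_cont p).aestronglyMeasurable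
      (Eventually.of_forall fun r => (norm_pw p r).le)
  have h3 := integral_re (𝕜 := ℂ) hi
  rw [h1] at h3
  have h4 : ∀ r : ℝ, (α * Gk (mu α k) |r|) * Real.cos (p * |r|) =
      RCLike.re (((α * Gk (mu α k) |r| : ℝ) : ℂ) * pw p r) := by
    intro r
    rw [cos_mul_abs, pw_eq]
    change _ = Complex.re _
    rw [Complex.re_ofReal_mul, Complex.add_re, Complex.ofReal_re, Complex.mul_re, Complex.I_re,
      Complex.I_im, Complex.ofReal_im, Complex.ofReal_re]
    ring
  simp_rw [h4]
  rw [h3]
  exact Complex.ofReal_re _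

theorem Dr_int (h2 : S_G) {α k : ℝ} (hk : 0 < k) (hα : 2 * k < α) : Integrable (Dr α k) := by
  have := (maj h2 hk hα 0).integral_prod_left
  refine this.congr (Eventually.of_forall fun s => ?_)
  simp [Dr]

theorem Dr_cos (h : S_FT) (h2 : S_G) {α k : ℝ} (hk : 0 < k) (hα : 2 * k < α) (p : ℝ)
    (hpk : k ^ 2 - p ^ 2 ≠ 0) :
    ∫ s, Dr α k s * Real.cos (p * s) = 2 / (qq α k p * (2 * qq α k p + α)) := by
  have hα0 : 0 < α := by linarith
  have e1 : ∫ s, Dr α k s * Real.cos (p * s) =
      ∫ s, ∫ r, (α * Gk (mu α k) |r|) * TT k |s| r * Real.cos (p * |s|) := by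
    refine integral_congr_ae (Eventually.of_forall fun s => ?_)
    simp only [Dr]
    rw [integral_mul_const, cos_mul_abs]
  rw [e1, integral_integral_swap (maj h2 hk hα p)]
  have e2 : ∀ r : ℝ, ∫ s, (α * Gk (mu α k) |r|) * TT k |s| r * Real.cos (p * |s|) =
      (Ioi (0 : ℝ)).indicator (fun r => (k ^ 2 - p ^ 2)⁻¹ * (2 * ((α * Gk (mu α k) r) *
        (Real.cos (p * r) - Real.cos (k * r))))) r := by
    intro r
    simp_rw [mul_assoc (α * Gk (mu α k) |r|)]
    rw [integral_const_mul, inner_J hk p r hpk, indicator_apply]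
    simp only [mem_Ioi]
    split_ifs with h0
    · rw [abs_of_pos h0]
      field_simp
    · simp
  simp_rw [e2]
  rw [integral_indicator measurableSet_Ioi, integral_const_mul, integral_const_mul,
    ← integral_comp_abs (f := fun r => (α * Gk (mu α k) r) *
        (Real.cos (p * r) - Real.cos (k * r)))]
  have i1 : ∀ p : ℝ, Integrable (fun r : ℝ => (α * Gk (mu α k) |r|) * Real.cos (p * |r|)) := by
    intro p
    refine (int_a h2 hk hα).mul_bdd (c := 1) (Continuous.aestronglyMeasurable (by fun_prop))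
      (Eventually.of_forall fun r => Real.abs_cos_le_one _)
  simp_rw [mul_sub]
  rw [integral_sub (i1 p) (i1 k), acos h h2 hk hα p, acos h h2 hk hα k]
  have hqk : qq α k k = α / 2 := by
    have := qq_k hk hα
    rw [← this]
    unfold qq
    rw [neg_sq]
  rw [hqk]
  have hq := qq_pos hk hα p
  have hsq := qq_sq (α := α) (k := k) p
  rw [mu_sq hk hα] at hsq
  have hne : α - 2 * qq α k p ≠ 0 := by
    intro h0
    apply hpk
    have : qq α k p = α / 2 := by linarith
    rw [this] at hsq
    nlinarith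
  have hkp : k ^ 2 - p ^ 2 = (α - 2 * qq α k p) * (2 * qq α k p + α) / 4 := by nlinarith
  have hpos : 2 * qq α k p + α ≠ 0 := by positivity
  rw [hkp]
  field_simp
  ring

theorem Dr_sin {α k : ℝ} (p : ℝ) : ∫ s, Dr α k s * Real.sin (p * s) = 0 := by
  have h1 := integral_neg_eq_self (fun s => Dr α k s * Real.sin (p * s)) volume
  have h3 : ∫ s, (fun s => Dr α k s * Real.sin (p * s)) (-s) = -∫ s, Dr α k s * Real.sin (p * s) := by
    rw [← integral_neg]
    refine integral_congr_ae (Eventually.of_forall fun s => ?_)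
    simp only [Dr, abs_neg, mul_neg, Real.sin_neg]
  rw [h3] at h1
  linarith

theorem D0_four (h : S_FT) (h2 : S_G) {α k : ℝ} (hk : 0 < k) (hα : 2 * k < α) (p : ℝ)
    (hpk : k ^ 2 - p ^ 2 ≠ 0) :
    ∫ s, D0 α k s * pw p s = ((2 / (qq α k p * (2 * qq α k p + α)) : ℝ) : ℂ) := by
  have hD : ∀ s, D0 α k s = ((Dr α k s : ℝ) : ℂ) := D0_eq h h2 hk hα
  have e : ∀ s, D0 α k s * pw p s = ((Dr α k s * Real.cos (p * s) : ℝ) : ℂ) +
      Complex.I * ((Dr α k s * Real.sin (p * s) : ℝ) : ℂ) := by
    intro s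
    rw [hD, pw_eq]
    push_cast
    ring
  simp_rw [e]
  have j1 : Integrable (fun s => Dr α k s * Real.cos (p * s)) :=
    (Dr_int h2 hk hα).mul_bdd (c := 1) (Continuous.aestronglyMeasurable (by fun_prop))
      (Eventually.of_forall fun r => Real.abs_cos_le_one _)
  have j2 : Integrable (fun s => Dr α k s * Real.sin (p * s)) :=
    (Dr_int h2 hk hα).mul_bdd (c := 1) (Continuous.aestronglyMeasurable (by fun_prop))
      (Eventually.of_forall fun r => Real.abs_sin_le_one _)
  rw [integral_add j1.ofReal (j2.ofReal.const_mul _), integral_const_mul]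
  have f1 : ∫ s, ((Dr α k s * Real.cos (p * s) : ℝ) : ℂ) =
      ((∫ s, Dr α k s * Real.cos (p * s) : ℝ) : ℂ) := integral_complex_ofReal
  have f2 : ∫ s, ((Dr α k s * Real.sin (p * s) : ℝ) : ℂ) =
      ((∫ s, Dr α k s * Real.sin (p * s) : ℝ) : ℂ) := integral_complex_ofReal
  rw [f1, f2, Dr_cos h h2 hk hα p hpk, Dr_sin]
  simp

theorem D0_inv (h : S_FT) (h2 : S_G) {α k : ℝ} (hk : 0 < k) (hα : 2 * k < α) (s : ℝ) :
    D0 α k s = ∫ ξ : ℝ, pw (2 * π * ξ) s *
      ((2 / (qq α k (2 * π * ξ) * (2 * qq α k (2 * π * ξ) + α)) : ℝ) : ℂ) := by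
  have hα0 : 0 < α := by linarith
  have hint : Integrable (D0 α k) := by
    have := (Dr_int h2 hk hα).ofReal (𝕜 := ℂ)
    refine this.congr (Eventually.of_forall fun s => ?_)
    exact (D0_eq h h2 hk hα s).symm
  set E : ℝ → ℂ := fun ξ =>
    ((2 / (qq α k (2 * π * ξ) * (2 * qq α k (2 * π * ξ) + α)) : ℝ) : ℂ) with hE
  have hae : 𝓕 (D0 α k) =ᵐ[volume] E := by
    have hfin : (volume : Measure ℝ) {k / (2 * π), -k / (2 * π)} = 0 :=
      (Set.toFinite _).measure_zero volume
    filter_upwards [compl_mem_ae_iff.2 hfin] with ξ hξ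
    rw [four_pw]
    have hne : k ^ 2 - (-(2 * π * ξ)) ^ 2 ≠ 0 := by
      intro h0
      apply hξ
      have h1 : (k - 2 * π * ξ) * (k + 2 * π * ξ) = 0 := by linarith
      have hpi := Real.pi_pos
      rcases mul_eq_zero.1 h1 with h3 | h3
      · left
        rw [eq_div_iff (by positivity)]
        linarith
      · right
        rw [mem_singleton_iff, eq_div_iff (by positivity)]
        linarith
    rw [D0_four h h2 hk hα _ hne]
    have : qq α k (-(2 * π * ξ)) = qq α k (2 * π * ξ) := by unfold qq; rw [neg_sq]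
    rw [this]
  have hEi : Integrable E := by
    refine (int_q hk hα).mono' ?_ (Eventually.of_forall fun ξ => ?_)
    · refine Continuous.aestronglyMeasurable (Complex.continuous_ofReal.comp ?_)
      have hqc : Continuous (fun ξ : ℝ => qq α k (2 * π * ξ)) := qq_cont.comp (by fun_prop)
      refine continuous_const.div₀ (hqc.mul ((continuous_const.mul hqc).add continuous_const))
        fun ξ => ?_
      have := qq_pos hk hα (2 * π * ξ)
      positivity
    · have hq := qq_pos hk hα (2 * π * ξ)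
      rw [hE]
      simp only
      rw [Complex.norm_real, Real.norm_of_nonneg (by positivity), div_le_div_iff₀ (by positivity)
        (by positivity)]
      nlinarith [mul_pos hq hα0]
  have hFi : Integrable (𝓕 (D0 α k)) := hEi.congr hae.symm
  have hinv := MeasureTheory.Integrable.fourierInv_fourier_eq hint hFi
    ((D0_cont h2 hk hα).continuousAt (x := s))
  rw [← hinv, Real.fourierInv_congr_ae hae, Real.fourierInv_eq']
  refine integral_congr_ae (Eventually.of_forall fun ξ => ?_)
  simp only [smul_eq_mul, hE, pw]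
  congr 2
  simp
  ring

theorem t_WB (h : S_FT) (h2 : S_G) : S_WB := by
  intro α k w hk hα hw s
  have hα0 : 0 < α := by linarith
  have h1 := D0_inv h h2 hk hα s
  unfold D0 at h1
  rw [h1, Complex.ofReal_mul, conv_w h h2 hk hα hw s, ← integral_const_mul]
  refine integral_congr_ae (Eventually.of_forall fun ξ => ?_)
  have hq := qq_pos hk hα (2 * π * ξ)
  simp only
  rw [mul_left_comm]
  congr 1
  rw [← Complex.ofReal_mul]
  congr 1
  have h3 : α + 2 * qq α k (2 * π * ξ) ≠ 0 := by positivity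
  have h4 : 2 * qq α k (2 * π * ξ) + α ≠ 0 := by positivity
  field_simp
  ring

end Pool.Agent.E8helper7.LC
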