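import Pool.Agent.E8helper19.LC.Stm

/-!
# Project LC (helper19), MP_862eda_mp: piece LC21, Fourier preliminaries
-/

set_option autoImplicit false
open MeasureTheory Filter Topology Set FourierTransform SchwartzMap
open scoped ContDiff Real ComplexInnerProductSpace

namespace Pool.Agent.E8helper7.LC

open Pool.Agent.E8helper19.LC

theorem four_pw (f : ℝ → ℂ) (ξ : ℝ) : 𝓕 f ξ = ∫ r, f r * pw (-(2 * π * ξ)) r := by
  rw [Real.fourier_real_eq_integral_exp_smul]
  refine integral_congr_ae (Eventually.of_forall fun r => ?_)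
  simp only [smul_eq_mul, pw]
  rw [mul_comm]
  congr 2
  push_cast
  ring

/-- an integrable function whose Fourier transform is in `L²` is in `L²` -/
theorem mem2 (f : ℝ → ℂ) (hf : Integrable f) (h2 : MemLp (𝓕 f) 2) :
    ∃ hf2 : MemLp f 2, 𝓕 (hf2.toLp f) = h2.toLp (𝓕 f) := by
  set F : Lp ℂ 2 (volume : Measure ℝ) := h2.toLp (𝓕 f) with hF
  set W : Lp ℂ 2 (volume : Measure ℝ) := 𝓕⁻ F with hW
  have hFW : 𝓕 W = F := by rw [hW]; exact fourier_fourierInv_eq F
  have key : ∀ g : 𝓢(ℝ, ℂ), ∫ x, g x * W x = ∫ x, g x * f x := by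
    intro g
    have h1 := MeasureTheory.Lp.fourier_toTemperedDistribution_eq W
    rw [hFW] at h1
    have h3 := congrArg (fun T : 𝓢'(ℝ, ℂ) => T (𝓕⁻ g)) h1
    simp only [TemperedDistribution.fourier_apply] at h3
    rw [fourier_fourierInv_eq] at h3
    rw [MeasureTheory.Lp.toTemperedDistribution_apply,
      MeasureTheory.Lp.toTemperedDistribution_apply] at h3
    simp only [smul_eq_mul] at h3
    rw [h3]
    have h4 : ∫ x, (𝓕⁻ g) x * F x = ∫ x, (𝓕⁻ g) x * 𝓕 f x := by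
      refine integral_congr_ae ?_
      filter_upwards [h2.coeFn_toLp] with x hx
      rw [hF, hx]
    rw [h4]
    have h5 := VectorFourier.integral_bilin_fourierIntegral_eq_flip (ContinuousLinearMap.mul ℂ ℂ)
      (L := innerₗ ℝ) (μ := volume) (ν := volume)
      (f := f) (g := (𝓕⁻ g : 𝓢(ℝ, ℂ))) Real.continuous_fourierChar continuous_inner hf (𝓕⁻ g : 𝓢(ℝ, ℂ)).integrable
    simp only [ContinuousLinearMap.mul_apply', flip_innerₗ] at h5
    have h6 : ∀ x, 𝓕 (𝓕⁻ g : 𝓢(ℝ, ℂ)) x = g x := by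
      intro x
      rw [fourier_fourierInv_eq]
    have h7 : ∫ x, 𝓕 f x * (𝓕⁻ g : 𝓢(ℝ, ℂ)) x = ∫ x, f x * 𝓕 ((𝓕⁻ g : 𝓢(ℝ, ℂ)) : ℝ → ℂ) x := h5
    calc ∫ x, (𝓕⁻ g) x * 𝓕 f x = ∫ x, 𝓕 f x * (𝓕⁻ g : 𝓢(ℝ, ℂ)) x := by
          refine integral_congr_ae (Eventually.of_forall fun x => ?_)
          exact mul_comm _ _
      _ = ∫ x, f x * 𝓕 ((𝓕⁻ g : 𝓢(ℝ, ℂ)) : ℝ → ℂ) x := h7
      _ = ∫ x, g x * f x := by
          refine integral_congr_ae (Eventually.of_forall fun x => ?_)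
          have := h6 x
          rw [SchwartzMap.fourier_coe] at this
          simp only [this]
          exact mul_comm _ _
  have hae : (W : ℝ → ℂ) =ᵐ[volume] f := by
    refine ae_eq_of_integral_contDiff_smul_eq ?_ hf.locallyIntegrable ?_
    · exact (Lp.memLp W).locallyIntegrable (by norm_num)
    · intro g hg hc
      have hg₁ : HasCompactSupport (Complex.ofRealCLM ∘ g) := hc.comp_left rfl
      have hg₂ : ContDiff ℝ ∞ (Complex.ofRealCLM ∘ g) := by fun_prop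
      have := key (hg₁.toSchwartzMap hg₂)
      simpa using this
  have hf2 : MemLp f 2 := (memLp_congr_ae hae).1 (Lp.memLp W)
  refine ⟨hf2, ?_⟩
  have : hf2.toLp f = W := by
    apply Lp.ext
    exact (hf2.coeFn_toLp).trans hae.symm
  rw [this, hFW]

/-- Plancherel for integrable functions with square integrable Fourier transforms -/
theorem planch (f g : ℝ → ℂ) (hf : Integrable f) (hg : Integrable g) (hf2 : MemLp (𝓕 f) 2)
    (hg2 : MemLp (𝓕 g) 2) :
    ∫ r, starRingEnd ℂ (f r) * g r = ∫ ξ, starRingEnd ℂ (𝓕 f ξ) * 𝓕 g ξ := by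
  obtain ⟨mf, ef⟩ := mem2 f hf hf2
  obtain ⟨mg, eg⟩ := mem2 g hg hg2
  have h := MeasureTheory.Lp.inner_fourier_eq (mf.toLp f) (mg.toLp g)
  rw [ef, eg, L2.inner_def, L2.inner_def] at h
  have h1 : ∫ r, inner ℂ ((mf.toLp f) r) ((mg.toLp g) r) = ∫ r, starRingEnd ℂ (f r) * g r := by
    refine integral_congr_ae ?_
    filter_upwards [mf.coeFn_toLp, mg.coeFn_toLp] with x hx hy
    rw [hx, hy]
    simp [mul_comm]
  have h2 : ∫ r, inner ℂ ((hf2.toLp (𝓕 f)) r) ((hg2.toLp (𝓕 g)) r) =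
      ∫ ξ, starRingEnd ℂ (𝓕 f ξ) * 𝓕 g ξ := by
    refine integral_congr_ae ?_
    filter_upwards [hf2.coeFn_toLp, hg2.coeFn_toLp] with x hx hy
    rw [hx, hy]
    simp [mul_comm]
  rw [← h1, ← h2, h]

end Pool.Agent.E8helper7.LC
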