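import Pool.Agent.E8helper7.LC.WB1

/-!
# Project LC (helper19), MP_862eda_mp: piece LC21, the convolution `a * w`
-/

set_option autoImplicit false
open MeasureTheory Filter Topology Set FourierTransform SchwartzMap
open scoped ContDiff Real ComplexInnerProductSpace

namespace Pool.Agent.E8helper7.LC

open Pool.Agent.E8helper19.LC

theorem mu_arg {α k : ℝ} (hk : 0 < k) (hα : 2 * k < α) : 0 < α ^ 2 / 4 - k ^ 2 := by nlinarith

theorem mu_pos {α k : ℝ} (hk : 0 < k) (hα : 2 * k < α) : 0 < mu α k :=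
  Real.sqrt_pos.2 (mu_arg hk hα)

theorem mu_sq {α k : ℝ} (hk : 0 < k) (hα : 2 * k < α) : mu α k ^ 2 = α ^ 2 / 4 - k ^ 2 :=
  Real.sq_sqrt (mu_arg hk hα).le

/-- `q = √(p² + μ²)` -/
noncomputable def qq (α k p : ℝ) : ℝ := √(p ^ 2 + mu α k ^ 2)

theorem qq_pos {α k : ℝ} (hk : 0 < k) (hα : 2 * k < α) (p : ℝ) : 0 < qq α k p := by
  have := mu_pos hk hα
  exact Real.sqrt_pos.2 (by positivity)

theorem qq_sq {α k : ℝ} (p : ℝ) : qq α k p ^ 2 = p ^ 2 + mu α k ^ 2 :=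
  Real.sq_sqrt (by positivity)

theorem qq_cont {α k : ℝ} : Continuous (qq α k) := by
  unfold qq; fun_prop

theorem pw_add (p s t : ℝ) : pw p (s + t) = pw p s * pw p t := by
  unfold pw
  rw [← Complex.exp_add]
  congr 1
  push_cast
  ring

theorem pw_neg (p s : ℝ) : pw p (-s) = pw (-p) s := by
  unfold pw
  congr 1
  push_cast
  ring

theorem norm_pw (p s : ℝ) : ‖pw p s‖ = 1 := by
  unfold pw
  rw [Complex.norm_exp]
  simp

theorem pw_cont (p : ℝ) : Continuous (pw p) := by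
  unfold pw; fun_prop

theorem conj_pw (p s : ℝ) : starRingEnd ℂ (pw p s) = pw (-p) s := by
  unfold pw
  rw [← Complex.exp_conj]
  congr 1
  simp

theorem ahat (h : S_FT) {α k : ℝ} (hk : 0 < k) (hα : 2 * k < α) (p : ℝ) :
    ∫ r : ℝ, ((α * Gk (mu α k) |r| : ℝ) : ℂ) * pw p r = ((α / (2 * qq α k p) : ℝ) : ℂ) := by
  have h1 := h.1 (mu α k) p (mu_pos hk hα)
  have h2 : ∀ r : ℝ, ((α * Gk (mu α k) |r| : ℝ) : ℂ) * pw p r =
      (α : ℂ) * (((Gk (mu α k) |r| : ℝ) : ℂ) * pw p r) := by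
    intro r; push_cast; ring
  simp_rw [h2]
  rw [integral_const_mul, h1]
  unfold qq
  push_cast
  ring

theorem int_a (h2 : S_G) {α k : ℝ} (hk : 0 < k) (hα : 2 * k < α) :
    Integrable (fun r : ℝ => α * Gk (mu α k) |r|) :=
  (h2.2.2.2.2.1 (mu α k) (mu_pos hk hα)).const_mul α

theorem int_as (h2 : S_G) {α k : ℝ} (hk : 0 < k) (hα : 2 * k < α) (s : ℝ) :
    Integrable (fun r : ℝ => α * Gk (mu α k) |s - r|) :=
  (int_a h2 hk hα).comp_sub_left s

theorem four_as (h : S_FT) {α k : ℝ} (hk : 0 < k) (hα : 2 * k < α) (s p : ℝ) :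
    ∫ r : ℝ, ((α * Gk (mu α k) |s - r| : ℝ) : ℂ) * pw p r =
      pw p s * ((α / (2 * qq α k p) : ℝ) : ℂ) := by
  have h1 : ∫ r : ℝ, ((α * Gk (mu α k) |s - r| : ℝ) : ℂ) * pw p r =
      ∫ x : ℝ, ((α * Gk (mu α k) |x| : ℝ) : ℂ) * pw p (s - x) := by
    have := integral_sub_left_eq_self (fun x : ℝ => ((α * Gk (mu α k) |x| : ℝ) : ℂ) * pw p (s - x))
      volume s
    rw [← this]
    refine integral_congr_ae (Eventually.of_forall fun r => ?_)
    simp only [sub_sub_cancel]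
  rw [h1]
  have h2 : ∀ x : ℝ, ((α * Gk (mu α k) |x| : ℝ) : ℂ) * pw p (s - x) =
      pw p s * (((α * Gk (mu α k) |x| : ℝ) : ℂ) * pw (-p) x) := by
    intro x
    rw [sub_eq_add_neg, pw_add, pw_neg]
    ring
  simp_rw [h2]
  rw [integral_const_mul, ahat h hk hα (-p)]
  unfold qq
  rw [neg_sq]

theorem int_q {α k : ℝ} (hk : 0 < k) (hα : 2 * k < α) :
    Integrable (fun ξ : ℝ => 1 / (qq α k (2 * π * ξ)) ^ 2) := by
  have hμ := mu_pos hk hα
  set m := min 1 (mu α k ^ 2) with hm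
  have hm0 : 0 < m := lt_min one_pos (by positivity)
  have hb : Integrable (fun ξ : ℝ => m⁻¹ * (1 + ξ ^ 2)⁻¹) := integrable_inv_one_add_sq.const_mul _
  refine hb.mono' ?_ (Eventually.of_forall fun ξ => ?_)
  · refine Continuous.aestronglyMeasurable ?_
    refine continuous_const.div₀ ?_ fun ξ => ?_
    · exact (qq_cont.comp (by fun_prop)).pow 2
    · exact (pow_pos (qq_pos hk hα _) 2).ne'
  · have h1 := qq_pos hk hα (2 * π * ξ)
    rw [Real.norm_of_nonneg (by positivity), qq_sq, ← mul_inv, one_div]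
    refine inv_anti₀ (by positivity) ?_
    have h2 : m ≤ 1 := min_le_left _ _
    have h3 : m ≤ mu α k ^ 2 := min_le_right _ _
    have h4 : (1 : ℝ) ≤ (2 * π) ^ 2 := by nlinarith [Real.pi_gt_three]
    have h5 : ξ ^ 2 ≤ (2 * π * ξ) ^ 2 := by
      have := mul_le_mul_of_nonneg_right h4 (sq_nonneg ξ)
      nlinarith
    have h6 : m * ξ ^ 2 ≤ 1 * ξ ^ 2 := mul_le_mul_of_nonneg_right h2 (sq_nonneg ξ)
    nlinarith

/-- a function bounded by `C / q` is in `L²` -/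
theorem mem_q {α k C : ℝ} (hk : 0 < k) (hα : 2 * k < α) (F : ℝ → ℂ) (hF : Continuous F)
    (hC : ∀ ξ, ‖F ξ‖ ≤ C / qq α k (2 * π * ξ)) : MemLp F 2 := by
  rw [memLp_two_iff_integrable_sq_norm hF.aestronglyMeasurable]
  refine ((int_q hk hα).const_mul (C ^ 2)).mono' ?_ (Eventually.of_forall fun ξ => ?_)
  · exact (hF.norm.pow 2).aestronglyMeasurable
  · have h1 := qq_pos hk hα (2 * π * ξ)
    rw [Real.norm_of_nonneg (by positivity)]
    calc ‖F ξ‖ ^ 2 ≤ (C / qq α k (2 * π * ξ)) ^ 2 := by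
          gcongr
          exact hC ξ
      _ = C ^ 2 * (1 / (qq α k (2 * π * ξ)) ^ 2) := by rw [div_pow]; ring

/-- the convolution of `a` and `w` -/
theorem conv_w (h : S_FT) (h2 : S_G) {α k : ℝ} (hk : 0 < k) (hα : 2 * k < α) {w : ℝ → ℝ}
    (hw : WF α k w) (s : ℝ) :
    ((∫ r, α * Gk (mu α k) |s - r| * w r : ℝ) : ℂ) =
      ∫ ξ : ℝ, pw (2 * π * ξ) s *
        ((α / (2 * qq α k (2 * π * ξ)) * (α / (α + 2 * qq α k (2 * π * ξ))) : ℝ) : ℂ) := by
  have hα0 : 0 < α := by linarith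
  set f : ℝ → ℂ := fun r => ((α * Gk (mu α k) |s - r| : ℝ) : ℂ) with hf
  set g : ℝ → ℂ := fun r => (w r : ℂ) with hg
  have hfi : Integrable f := (int_as h2 hk hα s).ofReal
  have hgi : Integrable g := hw.int.ofReal
  have hq : ∀ ξ : ℝ, qq α k (-(2 * π * ξ)) = qq α k (2 * π * ξ) := by
    intro ξ; unfold qq; rw [neg_sq]
  have hFf : 𝓕 f = fun ξ => pw (-(2 * π * ξ)) s * ((α / (2 * qq α k (2 * π * ξ)) : ℝ) : ℂ) := by
    funext ξ
    rw [four_pw]
    have := four_as h hk hα s (-(2 * π * ξ))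
    rw [hq] at this
    exact this
  have hFg : 𝓕 g = fun ξ => ((α / (α + 2 * qq α k (2 * π * ξ)) : ℝ) : ℂ) := by
    funext ξ
    rw [four_pw]
    have := hw.ft (-(2 * π * ξ))
    rw [neg_sq] at this
    exact this
  have hqc : Continuous (fun ξ : ℝ => qq α k (2 * π * ξ)) := qq_cont.comp (by fun_prop)
  have hpc : Continuous (fun ξ : ℝ => pw (-(2 * π * ξ)) s) := by unfold pw; fun_prop
  have c1 : Continuous (fun ξ : ℝ => α / (2 * qq α k (2 * π * ξ))) :=
    continuous_const.div₀ (continuous_const.mul hqc) fun ξ => by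
      have := qq_pos hk hα (2 * π * ξ); positivity
  have c2 : Continuous (fun ξ : ℝ => α / (α + 2 * qq α k (2 * π * ξ))) :=
    continuous_const.div₀ (continuous_const.add (continuous_const.mul hqc)) fun ξ => by
      have := qq_pos hk hα (2 * π * ξ); positivity
  have m1 : MemLp (𝓕 f) 2 := by
    rw [hFf]
    refine mem_q (C := α) hk hα _ (hpc.mul (Complex.continuous_ofReal.comp c1)) fun ξ => ?_
    have h1 := qq_pos hk hα (2 * π * ξ)
    rw [norm_mul, norm_pw, one_mul, Complex.norm_real, Real.norm_of_nonneg (by positivity)]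
    gcongr
    linarith
  have m2 : MemLp (𝓕 g) 2 := by
    rw [hFg]
    refine mem_q (C := α) hk hα _ (Complex.continuous_ofReal.comp c2) fun ξ => ?_
    have h1 := qq_pos hk hα (2 * π * ξ)
    rw [Complex.norm_real, Real.norm_of_nonneg (by positivity)]
    gcongr
    linarith
  have hP := planch f g hfi hgi m1 m2
  rw [hFf, hFg] at hP
  have e0 : ((∫ r, α * Gk (mu α k) |s - r| * w r : ℝ) : ℂ) =
      ∫ r, ((α * Gk (mu α k) |s - r| * w r : ℝ) : ℂ) := integral_complex_ofReal.symm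
  rw [e0]
  have e1 : ∫ r, ((α * Gk (mu α k) |s - r| * w r : ℝ) : ℂ) = ∫ r, starRingEnd ℂ (f r) * g r := by
    refine integral_congr_ae (Eventually.of_forall fun r => ?_)
    simp [hf, hg]
  have e2 : ∫ ξ : ℝ, starRingEnd ℂ (pw (-(2 * π * ξ)) s *
      ((α / (2 * qq α k (2 * π * ξ)) : ℝ) : ℂ)) * ((α / (α + 2 * qq α k (2 * π * ξ)) : ℝ) : ℂ) =
      ∫ ξ : ℝ, pw (2 * π * ξ) s *
        ((α / (2 * qq α k (2 * π * ξ)) * (α / (α + 2 * qq α k (2 * π * ξ))) : ℝ) : ℂ) := by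
    refine integral_congr_ae (Eventually.of_forall fun ξ => ?_)
    simp only [map_mul, conj_pw, Complex.conj_ofReal, neg_neg]
    push_cast
    ring
  rw [← e2, ← hP, ← e1]

end Pool.Agent.E8helper7.LC
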