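import Pool.Agent.E8helper7.LC.WB2

/-!
# Project LC (helper19), MP_862eda_mp: piece LC21, the function `g₀ - a * g₀`
-/

set_option autoImplicit false
open MeasureTheory Filter Topology Set FourierTransform SchwartzMap
open scoped ContDiff Real ComplexInnerProductSpace

namespace Pool.Agent.E8helper7.LC

open Pool.Agent.E8helper19.LC

/-- `sin (k (r - σ)) / k` for `r > σ` -/
noncomputable def TT (k σ r : ℝ) : ℝ := if σ < r then Real.sin (k * (r - σ)) / k else 0

theorem TT_meas (k : ℝ) : Measurable (fun z : ℝ × ℝ => TT k |z.1| z.2) := by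
  unfold TT
  refine Measurable.ite ?_ ?_ measurable_const
  · exact measurableSet_lt (by fun_prop) (by fun_prop)
  · fun_prop

theorem TT_le {k : ℝ} (hk : 0 < k) (σ r : ℝ) : |TT k σ r| ≤ if σ < r then 1 / k else 0 := by
  unfold TT
  split_ifs
  · rw [abs_div, abs_of_pos hk]
    exact div_le_div_of_nonneg_right (Real.abs_sin_le_one _) hk.le
  · simp

theorem g0_even (k s : ℝ) : g0 k (-s) = g0 k s := by
  unfold g0; rw [abs_neg]

theorem g0_cont (k : ℝ) : Continuous (g0 k) := by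
  unfold g0 pw; fun_prop

theorem g0_norm {k : ℝ} (hk : 0 < k) (s : ℝ) : ‖g0 k s‖ ≤ 1 / (2 * k) := by
  unfold g0
  rw [norm_mul, norm_pw, mul_one, norm_div, Complex.norm_I, norm_mul, Complex.norm_real,
    Real.norm_of_nonneg hk.le]
  simp

theorem conv_g0 {α k : ℝ} (s : ℝ) :
    ∫ r, ((α * Gk (mu α k) |s - r| : ℝ) : ℂ) * g0 k r =
      ∫ x, ((α * Gk (mu α k) |x| : ℝ) : ℂ) * g0 k (s - x) := by
  have := integral_sub_left_eq_self (fun x : ℝ => ((α * Gk (mu α k) |x| : ℝ) : ℂ) * g0 k (s - x))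
    volume s
  rw [← this]
  refine integral_congr_ae (Eventually.of_forall fun r => ?_)
  simp only [sub_sub_cancel]

theorem conv_g0_abs {α k : ℝ} (s : ℝ) :
    ∫ x, ((α * Gk (mu α k) |x| : ℝ) : ℂ) * g0 k (s - x) =
      ∫ x, ((α * Gk (mu α k) |x| : ℝ) : ℂ) * g0 k (|s| - x) := by
  rcases le_or_gt 0 s with hs | hs
  · rw [abs_of_nonneg hs]
  · rw [abs_of_neg hs]
    rw [← integral_neg_eq_self (fun x : ℝ => ((α * Gk (mu α k) |x| : ℝ) : ℂ) * g0 k (s - x)) volume]
    refine integral_congr_ae (Eventually.of_forall fun r => ?_)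
    simp only [abs_neg]
    rw [← g0_even k (-s - r)]
    congr 2
    ring

theorem pw_diff {k : ℝ} (hk : 0 < k) (σ r : ℝ) :
    Complex.I / (2 * k) * (pw k (σ - r) - pw k |σ - r|) = ((TT k σ r : ℝ) : ℂ) := by
  unfold TT
  split_ifs with h
  · rw [abs_of_neg (by linarith)]
    have e1 : pw k (σ - r) = Complex.cos ((k * (r - σ) : ℝ)) - Complex.I * Complex.sin ((k * (r - σ) : ℝ)) := by
      unfold pw
      have : Complex.I * k * ((σ - r : ℝ) : ℂ) = -(((k * (r - σ) : ℝ)) : ℂ) * Complex.I := by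
        push_cast; ring
      rw [this, Complex.exp_mul_I, Complex.cos_neg, Complex.sin_neg]
      ring
    have e2 : pw k (-(σ - r)) = Complex.cos ((k * (r - σ) : ℝ)) + Complex.I * Complex.sin ((k * (r - σ) : ℝ)) := by
      unfold pw
      have : Complex.I * k * ((-(σ - r) : ℝ) : ℂ) = (((k * (r - σ) : ℝ)) : ℂ) * Complex.I := by
        push_cast; ring
      rw [this, Complex.exp_mul_I]
      ring
    rw [e1, e2]
    have hk' : (k : ℂ) ≠ 0 := by exact_mod_cast hk.ne'
    rw [Complex.ofReal_div, Complex.ofReal_sin]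
    field_simp
    linear_combination (-2 * Complex.sin ((k * (r - σ) : ℝ))) * Complex.I_sq
  · rw [abs_of_nonneg (by linarith)]
    simp

/-- `D = g₀ - a * g₀` -/
noncomputable def D0 (α k s : ℝ) : ℂ :=
  g0 k s - (∫ r : ℝ, ((α * Gk (mu α k) |s - r| : ℝ) : ℂ) * g0 k r)

theorem int_aC (h2 : S_G) {α k : ℝ} (hk : 0 < k) (hα : 2 * k < α) :
    Integrable (fun r : ℝ => ((α * Gk (mu α k) |r| : ℝ) : ℂ)) := (int_a h2 hk hα).ofReal

theorem D0_cont (h2 : S_G) {α k : ℝ} (hk : 0 < k) (hα : 2 * k < α) : Continuous (D0 α k) := by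
  unfold D0
  refine (g0_cont k).sub ?_
  simp_rw [conv_g0]
  refine continuous_of_dominated (bound := fun x => ‖((α * Gk (mu α k) |x| : ℝ) : ℂ)‖ * (1 / (2 * k)))
    ?_ ?_ ?_ ?_
  · intro s
    exact (int_aC h2 hk hα).1.mul ((g0_cont k).comp (by fun_prop)).aestronglyMeasurable
  · intro s
    refine Eventually.of_forall fun x => ?_
    rw [norm_mul]
    exact mul_le_mul_of_nonneg_left (g0_norm hk _) (norm_nonneg _)
  · exact (int_aC h2 hk hα).norm.mul_const _
  · refine Eventually.of_forall fun x => ?_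
    exact continuous_const.mul ((g0_cont k).comp (by fun_prop))

theorem qq_k {α k : ℝ} (hk : 0 < k) (hα : 2 * k < α) : qq α k (-k) = α / 2 := by
  unfold qq
  rw [mu_sq hk hα, show (-k) ^ 2 + (α ^ 2 / 4 - k ^ 2) = (α / 2) ^ 2 by ring]
  exact Real.sqrt_sq (by linarith)

theorem D0_eq (h : S_FT) (h2 : S_G) {α k : ℝ} (hk : 0 < k) (hα : 2 * k < α) (s : ℝ) :
    D0 α k s = ((∫ r, (α * Gk (mu α k) |r|) * TT k |s| r : ℝ) : ℂ) := by
  have hα0 : 0 < α := by linarith
  have h1 : ∫ r : ℝ, ((α * Gk (mu α k) |r| : ℝ) : ℂ) * pw (-k) r = 1 := by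
    rw [ahat h hk hα (-k), qq_k hk hα]
    have : α / (2 * (α / 2)) = 1 := by field_simp
    rw [this]
    simp
  have h3 : g0 k s = ∫ r : ℝ, ((α * Gk (mu α k) |r| : ℝ) : ℂ) *
      (Complex.I / (2 * k) * pw k (|s| - r)) := by
    have e : ∀ r : ℝ, ((α * Gk (mu α k) |r| : ℝ) : ℂ) * (Complex.I / (2 * k) * pw k (|s| - r)) =
        g0 k s * (((α * Gk (mu α k) |r| : ℝ) : ℂ) * pw (-k) r) := by
      intro r
      unfold g0
      rw [sub_eq_add_neg, pw_add, pw_neg]
      ring
    simp_rw [e]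
    rw [integral_const_mul, h1, mul_one]
  have i1 : Integrable (fun r : ℝ => ((α * Gk (mu α k) |r| : ℝ) : ℂ) *
      (Complex.I / (2 * k) * pw k (|s| - r))) := by
    refine (int_aC h2 hk hα).mul_bdd (c := 1 / (2 * k)) ?_ (Eventually.of_forall fun r => ?_)
    · exact (continuous_const.mul ((pw_cont k).comp (by fun_prop))).aestronglyMeasurable
    · rw [norm_mul, norm_pw, mul_one, norm_div, Complex.norm_I, norm_mul, Complex.norm_real,
        Real.norm_of_nonneg hk.le]
      simp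
  have i2 : Integrable (fun r : ℝ => ((α * Gk (mu α k) |r| : ℝ) : ℂ) * g0 k (|s| - r)) := by
    refine (int_aC h2 hk hα).mul_bdd (c := 1 / (2 * k)) ?_ (Eventually.of_forall fun r => ?_)
    · exact ((g0_cont k).comp (by fun_prop)).aestronglyMeasurable
    · exact g0_norm hk _
  unfold D0
  rw [conv_g0, conv_g0_abs, h3, ← integral_sub i1 i2]
  have e0 : ((∫ r, (α * Gk (mu α k) |r|) * TT k |s| r : ℝ) : ℂ) =
      ∫ r, (((α * Gk (mu α k) |r|) * TT k |s| r : ℝ) : ℂ) := integral_complex_ofReal.symm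
  rw [e0]
  refine integral_congr_ae (Eventually.of_forall fun r => ?_)
  simp only
  rw [Complex.ofReal_mul _ (TT k |s| r), ← pw_diff hk |s| r]
  unfold g0
  ring

end Pool.Agent.E8helper7.LC
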