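import Pool.Agent.E8helper7.LC.WB3

/-!
# Project LC (helper19), MP_862eda_mp: piece LC21, Fourier transform of `g₀ - a * g₀`
-/

set_option autoImplicit false
open MeasureTheory Filter Topology Set FourierTransform SchwartzMap
open scoped ContDiff Real ComplexInnerProductSpace

namespace Pool.Agent.E8helper7.LC

open Pool.Agent.E8helper19.LC

/-- real version of `D0` -/
noncomputable def Dr (α k s : ℝ) : ℝ := ∫ r, (α * Gk (mu α k) |r|) * TT k |s| r

theorem int_xG (h2 : S_G) {α k : ℝ} (hk : 0 < k) (hα : 2 * k < α) :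
    IntegrableOn (fun r : ℝ => r * (α * Gk (mu α k) r)) (Ioi 0) := by
  have hμ := mu_pos hk hα
  have h1 := h2.2.2.2.1 1
  have h3 := (integrableOn_Ioi_comp_mul_left_iff (fun y : ℝ => y ^ 1 * Gk 1 y) 0 hμ).2
    (by simpa using h1)
  refine IntegrableOn.congr_fun (h3.const_mul (α / mu α k)) (fun r hr => ?_) measurableSet_Ioi
  have h4 := (h2.1 (mu α k) r hμ hr).2
  simp only [pow_one]
  rw [h4]
  field_simp

/-- the majorant -/
theorem maj (h2 : S_G) {α k : ℝ} (hk : 0 < k) (hα : 2 * k < α) (p : ℝ) :
    Integrable (fun z : ℝ × ℝ => (α * Gk (mu α k) |z.2|) * TT k |z.1| z.2 * Real.cos (p * |z.1|))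
      ((volume : Measure ℝ).prod volume) := by
  have hα0 : 0 < α := by linarith
  have hmeas : AEStronglyMeasurable (fun z : ℝ × ℝ =>
      (α * Gk (mu α k) |z.2|) * TT k |z.1| z.2 * Real.cos (p * |z.1|))
      ((volume : Measure ℝ).prod volume) := by
    refine (AEStronglyMeasurable.mul ?_ ?_).mul ?_
    · exact (int_a h2 hk hα).1.comp_snd
    · exact (TT_meas k).aestronglyMeasurable
    · exact (Continuous.aestronglyMeasurable (by fun_prop))
  have hb : ∀ s r : ℝ, ‖(α * Gk (mu α k) |r|) * TT k |s| r * Real.cos (p * |s|)‖ ≤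
      ‖α * Gk (mu α k) |r|‖ * (Ioo (-r) r).indicator (fun _ => 1 / k) s := by
    intro s r
    rw [norm_mul, norm_mul]
    have h1 : ‖Real.cos (p * |s|)‖ ≤ 1 := Real.abs_cos_le_one _
    have h3 : ‖TT k |s| r‖ ≤ (Ioo (-r) r).indicator (fun _ => 1 / k) s := by
      refine (TT_le hk |s| r).trans (le_of_eq ?_)
      rw [indicator_apply]
      congr 1
      rw [mem_Ioo, ← abs_lt]
    calc _ ≤ ‖α * Gk (mu α k) |r|‖ * ‖TT k |s| r‖ * 1 := by gcongr
      _ ≤ _ := by rw [mul_one]; gcongr
  have hi : ∀ r : ℝ, Integrable (fun s : ℝ => (Ioo (-r) r).indicator (fun _ => 1 / k) s) := by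
    intro r
    rw [integrable_indicator_iff measurableSet_Ioo]
    exact integrableOn_const (by simp)
  rw [integrable_prod_iff' hmeas]
  refine ⟨?_, ?_⟩
  · filter_upwards [hmeas.prod_swap.prodMk_left] with r hr
    refine ((hi r).const_mul ‖α * Gk (mu α k) |r|‖).mono' hr (Eventually.of_forall fun s => ?_)
    exact hb s r
  · have hI : Integrable (fun r : ℝ => (Ioi (0 : ℝ)).indicator
        (fun r => (2 / k) * (r * (α * Gk (mu α k) r))) r) := by
      rw [integrable_indicator_iff measurableSet_Ioi]
      exact (int_xG h2 hk hα).const_mul _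
    refine hI.mono' ?_ ?_
    · exact hmeas.norm.prod_swap.integral_prod_right'
    · have hae := hmeas.prod_swap.prodMk_left
      filter_upwards [hae] with r hr
      rw [Real.norm_of_nonneg (integral_nonneg fun s => norm_nonneg _)]
      have hle : ∫ s, ‖(α * Gk (mu α k) |r|) * TT k |s| r * Real.cos (p * |s|)‖ ≤
          ∫ s, ‖α * Gk (mu α k) |r|‖ * (Ioo (-r) r).indicator (fun _ => 1 / k) s := by
        refine integral_mono_of_nonneg (Eventually.of_forall fun s => norm_nonneg _)
          ((hi r).const_mul _) (Eventually.of_forall fun s => hb s r)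
      refine hle.trans ?_
      rw [integral_const_mul, integral_indicator measurableSet_Ioo, setIntegral_const,
        indicator_apply]
      split_ifs with h0
      · have h0' : (0 : ℝ) < r := h0
        have hG := (h2.1 (mu α k) r (mu_pos hk hα) h0').1
        rw [abs_of_pos h0', Real.norm_of_nonneg (by positivity), Measure.real, Real.volume_Ioo,
          ENNReal.toReal_ofReal (by linarith), smul_eq_mul]
        apply le_of_eq
        ring
      · have h0' : r ≤ 0 := not_lt.1 h0
        rw [Ioo_eq_empty (by linarith)]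
        simp

theorem deriv_aux (k p r s : ℝ) (hpk : k ^ 2 - p ^ 2 ≠ 0) :
    HasDerivAt (fun s => (k * (Real.cos (k * (r - s)) * Real.cos (p * s)) -
      p * (Real.sin (k * (r - s)) * Real.sin (p * s))) / (k ^ 2 - p ^ 2))
      (Real.sin (k * (r - s)) * Real.cos (p * s)) s := by
  have h1 : HasDerivAt (fun s => k * (r - s)) (-k) s := by
    have := ((hasDerivAt_id s).const_sub r).const_mul k
    simpa using this
  have h2 : HasDerivAt (fun s => p * s) p s := by
    have := (hasDerivAt_id s).const_mul p
    simpa using this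
  have h3 := (((h1.cos.mul h2.cos).const_mul k).sub ((h1.sin.mul h2.sin).const_mul p)).div_const
    (k ^ 2 - p ^ 2)
  refine h3.congr_deriv ?_
  rw [div_eq_iff hpk]
  ring

theorem inner_J {k : ℝ} (hk : 0 < k) (p r : ℝ) (hpk : k ^ 2 - p ^ 2 ≠ 0) :
    ∫ s, TT k |s| r * Real.cos (p * |s|) =
      if 0 < r then 2 * (Real.cos (p * r) - Real.cos (k * r)) / (k ^ 2 - p ^ 2) else 0 := by
  have h1 := integral_comp_abs (f := fun s => TT k s r * Real.cos (p * s))
  rw [h1]
  split_ifs with h0
  · have h2 : ∫ s in Ioi (0 : ℝ), TT k s r * Real.cos (p * s) =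
        ∫ s in Ioc 0 r, Real.sin (k * (r - s)) / k * Real.cos (p * s) := by
      have e : ∀ s : ℝ, TT k s r * Real.cos (p * s) =
          (Iio r).indicator (fun s => Real.sin (k * (r - s)) / k * Real.cos (p * s)) s := by
        intro s
        unfold TT
        rw [indicator_apply]
        simp only [mem_Iio]
        split_ifs <;> simp
      simp_rw [e]
      rw [setIntegral_indicator measurableSet_Iio, Ioi_inter_Iio, integral_Ioc_eq_integral_Ioo]
    rw [h2, ← intervalIntegral.integral_of_le h0.le]
    have h3 : ∫ s in (0 : ℝ)..r, Real.sin (k * (r - s)) / k * Real.cos (p * s) =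
        k⁻¹ * ∫ s in (0 : ℝ)..r, Real.sin (k * (r - s)) * Real.cos (p * s) := by
      rw [← intervalIntegral.integral_const_mul]
      congr 1
      funext s
      ring
    rw [h3, intervalIntegral.integral_eq_sub_of_hasDerivAt (fun s _ => deriv_aux k p r s hpk)
      (Continuous.intervalIntegrable (by fun_prop) _ _)]
    simp only [sub_self, mul_zero, Real.cos_zero, Real.sin_zero, sub_zero, mul_one, zero_mul,
      one_mul]
    field_simp
  · have : ∀ s ∈ Ioi (0 : ℝ), TT k s r * Real.cos (p * s) = 0 := by
      intro s hs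
      unfold TT
      rw [if_neg (by have : (0 : ℝ) < s := hs; linarith), zero_mul]
    rw [setIntegral_congr_fun measurableSet_Ioi this]
    simp

end Pool.Agent.E8helper7.LC
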